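import Pool.Agent.Helper54.TD.Rep
import Pool.Agent.Helper54.LA.Lim

/-!
# Homomorphisms of Artin groups which are injective on the dihedral parabolics; short alternating
products
-/

set_option autoImplicit false

namespace Pool.Agent.Helper54.TD

open scoped Matrix MatrixGroups

open Pool.Agent.Helper54.LA Pool.Agent.Helper29.BA Pool.Agent.Helper13.LT

section

/-- The dihedral parabolic subgroup with its two generators. -/
theorem exists_pair {A : Type*} [Group A] (s t : A) :
    ∃ (D : Subgroup A) (x : Bool → D), D = Subgroup.closure {s, t} ∧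
      (fun b => D.subtype (x b)) = pr s t ∧ Subgroup.closure (Set.range x) = ⊤ := by
  set D := Subgroup.closure ({s, t} : Set A) with hD
  have hs : s ∈ D := Subgroup.subset_closure (by simp)
  have ht : t ∈ D := Subgroup.subset_closure (by simp)
  refine ⟨D, pr ⟨_, hs⟩ ⟨_, ht⟩, rfl, ?_, ?_⟩
  · funext b
    cases b <;> rfl
  have hxe : D.subtype '' Set.range (pr (⟨_, hs⟩ : D) ⟨_, ht⟩) = {s, t} := by
    ext y
    constructor
    · rintro ⟨_, ⟨b, rfl⟩, rfl⟩
      cases b
      · exact Or.inr rfl
      · exact Or.inl rfl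
    · rintro (rfl | rfl)
      · exact ⟨pr ⟨_, hs⟩ ⟨_, ht⟩ true, ⟨true, rfl⟩, rfl⟩
      · exact ⟨pr ⟨_, hs⟩ ⟨_, ht⟩ false, ⟨false, rfl⟩, rfl⟩
  apply Subgroup.map_injective D.subtype_injective
  rw [MonoidHom.map_closure, hxe, ← hD, ← MonoidHom.range_eq_map, Subgroup.range_subtype]

theorem mem_pair {A : Type*} [Group A] {s t : A} (hc : Commute s t) {g : A}
    (hg : g ∈ Subgroup.closure ({s, t} : Set A)) : ∃ a b : ℤ, g = s ^ a * t ^ b := by
  induction hg using Subgroup.closure_induction with
  | mem x hx =>
    rcases hx with rfl | hx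
    · exact ⟨1, 0, by simp⟩
    · rw [Set.mem_singleton_iff.1 hx]
      exact ⟨0, 1, by simp⟩
  | one => exact ⟨0, 0, by simp⟩
  | mul x y _ _ hx hy =>
    obtain ⟨a, b, rfl⟩ := hx
    obtain ⟨c, d, rfl⟩ := hy
    refine ⟨a + c, b + d, ?_⟩
    rw [zpow_add, zpow_add, mul_assoc, ← mul_assoc (t ^ b), ← ((hc.zpow_zpow c b).eq)]
    simp only [mul_assoc]
  | inv x _ hx =>
    obtain ⟨a, b, rfl⟩ := hx
    refine ⟨-a, -b, ?_⟩
    rw [mul_inv_rev, ← zpow_neg, ← zpow_neg]
    exact ((hc.zpow_zpow (-a) (-b)).eq).symm

variable {S : Type*} [Fintype S] [LinearOrder S] {R : Type*} [CommRing R]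

/-- The representation together with the degree is faithful on the dihedral parabolic subgroups. -/
theorem rep2_faithful (f : R →+* ℝ) (hf : Function.Injective f) (M : S → S → ℕ)
    (hM : ∀ s t, s ≠ t → M s t = 0 ∨ 2 ≤ M s t) (hMs : ∀ s t, M s t = M t s) (L : S → S → R)
    (hL : ∀ s t, f (L s t) = lam (M s t)) {s t : S} (hst : s ≠ t) (h0 : M s t ≠ 0)
    (g : PresentedGroup (rels M))
    (hg : g ∈ Subgroup.closure {PresentedGroup.of s, PresentedGroup.of t})
    (h1 : rep2 f hf M hM hMs L hL g = 1) (h2 : deg M g = 1) : g = 1 := by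
  have key : ∀ s t : S, s < t → M s t ≠ 0 →
      g ∈ Subgroup.closure {PresentedGroup.of s, PresentedGroup.of t} → g = 1 := by
    intro s t h h0 hg
    have hge := (hM s t h.ne).resolve_left h0
    rcases hge.eq_or_lt with h2' | h3
    · -- commuting generators
      have hc : PresentedGroup.of (rels := rels M) s * PresentedGroup.of t =
          PresentedGroup.of t * PresentedGroup.of s := by
        have := braid_of M h.ne
        rw [← h2'] at this
        simpa [bp, pr] using this
      obtain ⟨a, b, rfl⟩ := mem_pair hc hg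
      obtain ⟨rfl, rfl⟩ := rep2_two f hf M hM hMs L hL h.ne h2'.symm a b h1
      simp
    · obtain ⟨D, x, hD, h5, hx⟩ := exists_pair (PresentedGroup.of (rels := rels M) s)
        (PresentedGroup.of t)
      rw [← hD] at hg
      have h6 : ∀ b, (x b : PresentedGroup (rels M)) =
          pr (PresentedGroup.of (rels := rels M) s) (PresentedGroup.of t) b := congrFun h5
      have hbr : bp x true (M s t) = bp x false (M s t) := by
        apply D.subtype_injective
        rw [map_bp, map_bp, h5]
        exact braid_of M h.ne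
      have := restr_faithful (x := x) hx (frm2_diag L) ((rep2 f hf M hM hMs L hL).comp D.subtype)
        (q := qq S s t) ?_ (qq_inj h.ne) (frm2_pair L h) f h3 (hL s t) hbr
        ((deg M).comp D.subtype) ?_ ⟨g, hg⟩ h1 h2
      · exact congrArg Subtype.val this
      · intro b
        change rep2 f hf M hM hMs L hL (x b) = _
        rw [h6]
        cases b
        · exact rep2_of f hf M hM hMs L hL _
        · exact rep2_of f hf M hM hMs L hL _
      · intro b
        change deg M (x b) = _
        rw [h6]
        cases b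
        · exact deg_of M _
        · exact deg_of M _
  rcases lt_or_gt_of_ne hst with h | h
  · exact key s t h h0 hg
  · rw [Set.pair_comm] at hg
    exact key t s h (by rwa [hMs]) hg

/-- The lemma of Appel and Schupp for Artin groups. -/
theorem rels_appel_schupp (M : S → S → ℕ)
    (hM : ∀ s t, s ≠ t → M s t = 0 ∨ 2 ≤ M s t) (hMs : ∀ s t, M s t = M t s) {s t : S}
    (hst : s ≠ t) (h0 : M s t ≠ 0) (l : List ℤ) (b : Bool) (hl0 : ∀ a ∈ l, a ≠ 0) (hl : l ≠ [])
    (hn : l.length < 2 * M s t) :
    pw (pr (PresentedGroup.of (rels := rels M) s) (PresentedGroup.of t)) b l ≠ 1 := by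
  have hL : ∀ s t, RingHom.id ℝ (lam (M s t)) = lam (M s t) := fun _ _ => rfl
  set φ := rep2 (RingHom.id ℝ) Function.injective_id M hM hMs (fun s t => lam (M s t)) hL with hφ
  have hφo : ∀ s, φ (PresentedGroup.of s) =
      tvu (frm2 fun s t => lam (M s t)) (frm2_diag _) (Sum.inl s) := fun s =>
    rep2_of _ _ M hM hMs _ hL s
  have key : ∀ s t : S, s < t → M s t ≠ 0 → l.length < 2 * M s t → ∀ b,
      pw (pr (PresentedGroup.of (rels := rels M) s) (PresentedGroup.of t)) b l ≠ 1 := by
    intro s t h h0 hn b
    have hge := (hM s t h.ne).resolve_left h0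
    rcases hge.eq_or_lt with h2 | h3
    · -- commuting generators
      have e2 : ∀ (b : Bool) (a c : ℤ), pr (PresentedGroup.of (rels := rels M) s)
          (PresentedGroup.of t) b ^ a * pr (PresentedGroup.of (rels := rels M) s)
          (PresentedGroup.of t) (!b) ^ c = 1 → a = 0 ∧ c = 0 := by
        intro b a c hac
        have h5 := congrArg φ hac
        rw [map_one] at h5
        cases b
        · exact rep2_two (RingHom.id ℝ) Function.injective_id M hM hMs _ hL h.ne'
            (by rw [hMs]; exact h2.symm) a c h5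
        · exact rep2_two (RingHom.id ℝ) Function.injective_id M hM hMs _ hL h.ne h2.symm a c h5
      intro h1
      rw [← h2] at hn
      rcases l with _ | ⟨a, _ | ⟨c, _ | ⟨d, _ | ⟨e, l⟩⟩⟩⟩
      · exact hl rfl
      · rw [pw_cons, pw_nil, mul_one] at h1
        exact hl0 a (by simp) (e2 b a 0 (by rw [zpow_zero, mul_one]; exact h1)).1
      · rw [pw_cons, pw_cons, pw_nil, mul_one] at h1
        exact hl0 a (by simp) (e2 b a c h1).1
      · rw [pw_cons, pw_cons, pw_cons, pw_nil, mul_one, Bool.not_not, ← mul_assoc] at h1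
        have h6 := mul_eq_one_comm.1 h1
        rw [← mul_assoc, ← zpow_add] at h6
        exact hl0 c (by simp) (e2 b (d + a) c h6).2
      · simp only [List.length_cons] at hn
        omega
    · intro h1
      obtain ⟨D, x, hD, h5, hx⟩ := exists_pair (PresentedGroup.of (rels := rels M) s)
        (PresentedGroup.of t)
      have h6 : ∀ b, (x b : PresentedGroup (rels M)) =
          pr (PresentedGroup.of (rels := rels M) s) (PresentedGroup.of t) b := congrFun h5
      obtain ⟨ψ, hψ, -⟩ := exists_restr (x := x) hx (frm2_diag (fun s t => lam (M s t)))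
        (φ.comp D.subtype)
        (q := qq S s t) (l := lam (M s t)) (by
          intro b
          change φ (x b) = _
          rw [h6]
          cases b
          · exact hφo _
          · exact hφo _) (qq_inj h.ne) (frm2_pair _ h)
      have hbr : bp x true (M s t) = bp x false (M s t) := by
        apply D.subtype_injective
        rw [map_bp, map_bp, h5]
        exact braid_of M h.ne
      have hpw : ∀ (l : List ℤ) (b : Bool), D.subtype (pw x b l) =
          pw (pr (PresentedGroup.of (rels := rels M) s) (PresentedGroup.of t)) b l := by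
        intro l
        induction l with
        | nil => intro b; simp
        | cons a l ih =>
          intro b
          rw [pw_cons, pw_cons, map_mul, ih, map_zpow, ← h6]
          rfl
      refine appel_schupp ψ h3 hbr ?_ ((deg M).comp D.subtype) ?_ l b hl0 hl hn ?_
      · intro b
        rw [hψ, yy_real]
      · intro b
        change deg M (x b) = _
        rw [h6]
        cases b
        · exact deg_of M _
        · exact deg_of M _
      · apply D.subtype_injective
        rw [hpw, h1, map_one]
  rcases lt_or_gt_of_ne hst with h | h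
  · exact key s t h h0 hn b
  · have h1 := key t s h (by rwa [hMs]) (by rwa [hMs]) (!b)
    have h2 : ∀ (l : List ℤ) (b : Bool),
        pw (pr (PresentedGroup.of (rels := rels M) s) (PresentedGroup.of t)) b l =
        pw (pr (PresentedGroup.of (rels := rels M) t) (PresentedGroup.of s)) (!b) l := by
      intro l
      induction l with
      | nil => intro b; rfl
      | cons a l ih =>
        intro b
        rw [pw_cons, pw_cons, ih]
        congr 1
        cases b <;> rfl
    rw [h2]
    exact h1

end

section

theorem exists_faithful2 {C : ∀ (G : Type) [Group G], Prop} (hC : ClosedClass C)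
    (hGL : ∀ n, C (GL (Fin n) ℤ)) {S : Type} [Finite S]
    (M : S → S → ℕ) (hM : ∀ s t, s ≠ t → M s t = 0 ∨ 2 ≤ M s t) (hMs : ∀ s t, M s t = M t s) :
    ∃ (Q : Type) (_ : Group Q) (f : PresentedGroup (rels M) →* Q), C Q ∧
      (∀ s t, s ≠ t → M s t ≠ 0 →
        ∀ g ∈ Subgroup.closure {PresentedGroup.of s, PresentedGroup.of t}, f g = 1 → g = 1) ∧
      ∀ (s : S) (n : ℤ), f (PresentedGroup.of s ^ n) = 1 → n = 0 := by
  classical
  have : Fintype S := Fintype.ofFinite S
  let _ : LinearOrder S := LinearOrder.lift' (Fintype.equivFin S) (Fintype.equivFin S).injective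
  let R := Algebra.adjoin ℤ (Set.range fun p : S × S => lam (M p.1 p.2))
  have hfin : Module.Finite ℤ R := by
    refine Module.Finite.iff_fg.2 (fg_adjoin_of_finite (Set.finite_range _) ?_)
    rintro _ ⟨p, rfl⟩
    have := Real.isIntegral_two_mul_cos_rat_mul_pi (1 / (M p.1 p.2 : ℚ))
    have h1 : ((1 / (M p.1 p.2 : ℚ) : ℚ) : ℝ) * Real.pi = Real.pi / (M p.1 p.2 : ℝ) := by
      push_cast
      rw [one_div, inv_mul_eq_div]
    rw [h1] at this
    exact this
  let f : R →+* ℝ := R.val.toRingHom
  have hf : Function.Injective f := Subtype.val_injective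
  let L : S → S → R := fun s t => ⟨lam (M s t), Algebra.subset_adjoin ⟨(s, t), rfl⟩⟩
  have hL : ∀ s t, f (L s t) = lam (M s t) := fun _ _ => rfl
  refine ⟨(Matrix (S ⊕ S) (S ⊕ S) R)ˣ × Multiplicative ℤ, inferInstance,
    (rep2 f hf M hM hMs L hL).prod (deg M), hC.prod _ _ (mem_units hC hGL R (S ⊕ S)) hC.int, ?_, ?_⟩
  · intro s t hst h0 g hg h
    exact rep2_faithful f hf M hM hMs L hL hst h0 g hg (congrArg Prod.fst h) (congrArg Prod.snd h)
  · intro s n h
    have h1 : deg M (PresentedGroup.of s ^ n) = 1 := congrArg Prod.snd h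
    rwa [map_zpow, deg_of, ← ofAdd_zsmul, smul_eq_mul, mul_one, ofAdd_eq_one] at h1

end

section

variable {S : Type} (M : CoxeterMatrix S)

theorem labels (s t : S) (hst : s ≠ t) : M s t = 0 ∨ 2 ≤ M s t := by
  have e1 := M.off_diagonal s t hst
  change M s t ≠ 1 at e1
  omega

/-- Artin groups of finite rank have a homomorphism to a group of the class which is injective on
the dihedral parabolic subgroups and on the cyclic ones. -/
theorem artin_faithful2 {C : ∀ (G : Type) [Group G], Prop} (hC : ClosedClass C)
    (hGL : ∀ n, C (GL (Fin n) ℤ)) [Finite S] :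
    ∃ (Q : Type) (_ : Group Q) (f : ArtinGroup M →* Q), C Q ∧
      (∀ s t, s ≠ t → M s t ≠ 0 →
        ∀ g ∈ Subgroup.closure {PresentedGroup.of s, PresentedGroup.of t}, f g = 1 → g = 1) ∧
      ∀ (s : S) (n : ℤ), f (PresentedGroup.of s ^ n) = 1 → n = 0 := by
  obtain ⟨Q, hQ, f, h1, h2, h5⟩ := exists_faithful2 hC hGL (fun s t => M s t) (labels M)
    (fun s t => M.symmetric s t)
  refine ⟨Q, hQ, f.comp (toR M), h1, fun s t hst h0 g hg h => ?_, fun s n h => ?_⟩
  · have h3 := h2 s t hst h0 (toR M g) ?_ h
    · rw [← ofR_toR M g, h3, map_one]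
    · have h4 := Subgroup.mem_map_of_mem (toR M) hg
      rw [MonoidHom.map_closure, Set.image_pair, toR_of, toR_of] at h4
      exact h4
  · rw [MonoidHom.comp_apply, map_zpow, toR_of] at h
    exact h5 s n h

theorem map_pw {D E : Type*} [Group D] [Group E] (f : D →* E) (x : Bool → D) (b : Bool)
    (l : List ℤ) : f (pw x b l) = pw (fun b => f (x b)) b l := by
  induction l generalizing b with
  | nil => simp
  | cons a l ih => rw [pw_cons, pw_cons, map_mul, ih, map_zpow]

/-- The lemma of Appel and Schupp for Artin groups of finite rank. -/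
theorem artin_appel_schupp [Finite S] {s t : S} (hst : s ≠ t) (h0 : M s t ≠ 0) (l : List ℤ)
    (b : Bool) (hl0 : ∀ a ∈ l, a ≠ 0) (hl : l ≠ []) (hn : l.length < 2 * M s t) :
    pw (pr (PresentedGroup.of (rels := artinRels M) s) (PresentedGroup.of t)) b l ≠ 1 := by
  classical
  have : Fintype S := Fintype.ofFinite S
  let _ : LinearOrder S := LinearOrder.lift' (Fintype.equivFin S) (Fintype.equivFin S).injective
  intro h
  have h1 := congrArg (toR M) h
  rw [map_pw, map_one, pr_map, toR_of, toR_of] at h1
  exact rels_appel_schupp (fun s t => M s t) (labels M) (fun s t => M.symmetric s t) hst h0 l b hl0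
    hl hn h1

end

end Pool.Agent.Helper54.TD
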