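import Pool.Agent.Helper54.LA.Dih

/-!
# Short alternating products of powers of the two generators of a dihedral Artin group

A product of `n` nontrivial powers, alternately of the two generators, is trivial only if `2 m ≤ n`.
-/

set_option autoImplicit false

namespace Pool.Agent.Helper54.TD

open Pool.Agent.Helper54.LA

section words

variable {D : Type*} [Group D] {x : Bool → D}

/-- The product `x b ^ a * x (!b) ^ a' * x b ^ a'' * ...`. -/
def pw (x : Bool → D) : Bool → List ℤ → D
  | _, [] => 1
  | b, a :: l => x b ^ a * pw x (!b) l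

@[simp] theorem pw_nil (b : Bool) : pw x b [] = 1 := rfl

theorem pw_cons (b : Bool) (a : ℤ) (l : List ℤ) : pw x b (a :: l) = x b ^ a * pw x (!b) l := rfl

theorem lt_succ (b : Bool) (n : ℕ) : LA.lt b (n + 1) = LA.lt (!b) n := by
  unfold LA.lt
  rcases Nat.even_or_odd n with h | h
  · rw [if_neg (Nat.not_even_iff_odd.2 h.add_one), if_pos h]
  · rw [if_pos h.add_one, if_neg (Nat.not_even_iff_odd.2 h), Bool.not_not]

theorem lt_not (b : Bool) (n : ℕ) : LA.lt (!b) n = !LA.lt b n := by
  unfold LA.lt
  split_ifs <;> rfl

theorem lt_lt (b : Bool) (n k : ℕ) : LA.lt (LA.lt b n) k = LA.lt b (n + k) := by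
  induction n generalizing b with
  | zero => simp [LA.lt]
  | succ n ih => rw [lt_succ, ih, show n + 1 + k = n + k + 1 by ring, lt_succ]

theorem lt_even (b : Bool) {n : ℕ} (h : Even n) : LA.lt b n = b := by
  unfold LA.lt
  rw [if_pos h]

theorem pw_append (b : Bool) (l l' : List ℤ) :
    pw x b (l ++ l') = pw x b l * pw x (LA.lt b l.length) l' := by
  induction l generalizing b with
  | nil => simp [LA.lt]
  | cons a l ih => rw [List.cons_append, pw_cons, ih, pw_cons, mul_assoc, List.length_cons, lt_succ]

theorem pw_inv (b : Bool) (l : List ℤ) :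
    (pw x b l)⁻¹ = pw x (LA.lt b (l.length + 1)) (l.reverse.map Neg.neg) := by
  induction l generalizing b with
  | nil => simp
  | cons a l ih =>
    rw [pw_cons, mul_inv_rev, ih, List.reverse_cons, List.map_append, pw_append, List.length_map,
      List.length_reverse, lt_lt, List.map_cons, List.map_nil, pw_cons, pw_nil, mul_one, ← zpow_neg,
      List.length_cons, lt_succ b (l.length + 1), lt_even b (n := l.length + 1 + 1 + l.length)
        ⟨l.length + 1, by ring⟩]

variable {m : ℕ}

/-- Reduced words are mapped to reduced words by the conjugation by the Garside element. -/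
theorem Red.conj (hb : bp x true m = bp x false m) {b : Bool} {r : ℕ} {g : D}
    (h : Red x m b r g) : Red x m (LA.lt b m) r ((dl x m)⁻¹ * g * dl x m) := by
  have h1 : ∀ b, (dl x m)⁻¹ * x b * dl x m = x (LA.lt b m) := by
    intro b
    rw [mul_assoc, mul_dl hb, inv_mul_cancel_left]
  have h2 : ∀ b g, (dl x m)⁻¹ * (x b * g) * dl x m =
      x (LA.lt b m) * ((dl x m)⁻¹ * g * dl x m) := by
    intro b g
    rw [← h1]
    group
  induction h with
  | one b => rw [h1]; exact Red.one _
  | same b r g _ ih => rw [h2]; exact Red.same _ _ _ ih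
  | alt b r g _ hr ih => rw [h2, lt_not]; exact Red.alt _ _ _ ih hr

/-- Alternating words before a doubled letter. -/
theorem Red.bp_mul {b : Bool} {r : ℕ} {g : D} (h : Red x m b r g) :
    ∀ (k : ℕ) (c : Bool), k + 1 < m → LA.lt c k = b → Red x m c (k + 1) (bp x c (k + 1) * g) := by
  intro k
  induction k with
  | zero =>
    intro c _ hc
    have : c = b := by simpa [LA.lt] using hc
    subst this
    simpa [bp] using Red.same _ _ _ h
  | succ k ih =>
    intro c hk hc
    rw [lt_succ] at hc
    have h1 := ih (!c) (by omega) hc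
    rw [bp_succ, mul_assoc]
    simpa using Red.alt _ _ _ h1 hk

theorem Red.inv_of_two_le {b : Bool} {r : ℕ} {g : D} (h : Red x m b r g) (hr : 2 ≤ r) :
    Red x m (!b) (r - 1) ((x b)⁻¹ * g) := by
  cases h with
  | one => omega
  | same => omega
  | alt b r g h _ =>
    rw [inv_mul_cancel_left, Bool.not_not, Nat.add_sub_cancel]
    exact h

theorem Red.inv (hm : 2 ≤ m) (hb : bp x true m = bp x false m) {b : Bool} {r : ℕ} {g : D}
    (h : Red x m (!b) r g) : Red x m (!b) (m - 1) ((x b)⁻¹ * g * dl x m) := by
  obtain ⟨n, rfl⟩ : ∃ n, m = n + 2 := ⟨m - 2, by omega⟩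
  have h1 : (x b)⁻¹ = bp x (!b) (n + 1) * (dl x (n + 2))⁻¹ := by
    rw [← bp_eq hb b, bp_succ x b (n + 1), mul_inv_rev, mul_inv_cancel_left]
  have h2 := Red.bp_mul (Red.conj hb h) n (!b) (by omega) (by
    unfold LA.lt
    rcases Nat.even_or_odd n with h | h
    · rw [if_pos h, if_pos (h.add even_two)]
    · rw [if_neg (Nat.not_even_iff_odd.2 h),
        if_neg (Nat.not_even_iff_odd.2 (h.add_even even_two))])
  rw [h1]
  simpa only [mul_assoc, Nat.add_sub_cancel, show n + 2 - 1 = n + 1 by omega] using h2

/-- Short alternating products. -/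
theorem red_pw (hm : 2 ≤ m) (hb : bp x true m = bp x false m) (l : List ℤ) (b : Bool)
    (hl : l.length < m) (h0 : ∀ a ∈ l, a ≠ 0) (a : ℤ) (l' : List ℤ) (hl' : l = a :: l') :
    (0 < a → ∃ (N r : ℕ), r ≤ l.length ∧ Red x m b r (pw x b l * dl x m ^ N)) ∧
    (a < 0 → ∃ (N r : ℕ), m ≤ r + l.length ∧ Red x m (!b) r (pw x b l * dl x m ^ N)) := by
  induction l generalizing b a l' with
  | nil => simp at hl'
  | cons c l ih =>
    obtain ⟨rfl, rfl⟩ := List.cons.inj hl'
    rw [List.length_cons] at hl ⊢
    constructor
    · intro hc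
      -- the first letter
      have h1 : ∃ (N r : ℕ), r ≤ l.length + 1 ∧
          Red x m b r (x b * (pw x (!b) l) * dl x m ^ N) := by
        rcases l with _ | ⟨d, l⟩
        · exact ⟨0, 1, by simp, by simpa using Red.one b⟩
        · have h2 := ih (!b) (by omega) (fun a ha => h0 a (List.mem_cons_of_mem _ ha)) d l rfl
          rcases lt_or_gt_of_ne (h0 d (by simp)) with hd | hd
          · obtain ⟨N, r, hr, h3⟩ := h2.2 hd
            rw [Bool.not_not] at h3
            exact ⟨N, 1, by omega, by rw [mul_assoc]; exact Red.same _ _ _ h3⟩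
          · obtain ⟨N, r, hr, h3⟩ := h2.1 hd
            refine ⟨N, r + 1, by omega, ?_⟩
            rw [mul_assoc]
            simpa using Red.alt _ _ _ h3 (by omega)
      obtain ⟨N, r, hr, h1⟩ := h1
      obtain ⟨n, rfl⟩ : ∃ n : ℕ, c = n + 1 := ⟨(c - 1).toNat, by omega⟩
      have h2 : ∀ n : ℕ, ∃ r, r ≤ l.length + 1 ∧
          Red x m b r (x b ^ ((n : ℤ) + 1) * (pw x (!b) l) * dl x m ^ N) := by
        intro n
        induction n with
        | zero => exact ⟨r, hr, by simpa using h1⟩
        | succ n ih =>
          obtain ⟨r, _, hr'⟩ := ih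
          refine ⟨1, by omega, ?_⟩
          have : x b ^ (((n + 1 : ℕ) : ℤ) + 1) * (pw x (!b) l) * dl x m ^ N =
              x b * (x b ^ ((n : ℤ) + 1) * (pw x (!b) l) * dl x m ^ N) := by
            rw [zpow_add_one (x b) ((n + 1 : ℕ) : ℤ)]
            push_cast
            rw [← zpow_add_one, add_comm ((n : ℤ) + 1) 1, zpow_add, zpow_one]
            simp only [mul_assoc]
          rw [this]
          exact Red.same _ _ _ hr'
      obtain ⟨r, hr, h3⟩ := h2 n
      exact ⟨N, r, hr, h3⟩
    · intro hc
      have h1 : ∃ (N r : ℕ), m ≤ r + (l.length + 1) ∧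
          Red x m (!b) r ((x b)⁻¹ * (pw x (!b) l) * dl x m ^ N) := by
        rcases l with _ | ⟨d, l⟩
        · refine ⟨1, m - 1, by simp; omega, ?_⟩
          obtain ⟨n, rfl⟩ : ∃ n, m = n + 2 := ⟨m - 2, by omega⟩
          have h1 : (x b)⁻¹ * dl x (n + 2) = bp x (!b) (n + 1) := by
            rw [← bp_eq hb b, bp_succ, inv_mul_cancel_left]
          rw [pw_nil, mul_one, pow_one, h1]
          have h2 : ∀ (k : ℕ) (c : Bool), k + 1 < n + 2 → Red x (n + 2) c (k + 1) (bp x c (k + 1)) := by
            intro k
            induction k with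
            | zero =>
              intro c _
              simpa [bp] using Red.one (x := x) (m := n + 2) c
            | succ k ih =>
              intro c hk
              rw [bp_succ]
              simpa using Red.alt _ _ _ (ih (!c) (by omega)) hk
          exact h2 n (!b) (by omega)
        · have h2 := ih (!b) (by omega) (fun a ha => h0 a (List.mem_cons_of_mem _ ha)) d l rfl
          rw [List.length_cons] at h2 hl ⊢
          rcases lt_or_gt_of_ne (h0 d (by simp)) with hd | hd
          · obtain ⟨N, r, hr, h3⟩ := h2.2 hd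
            rw [Bool.not_not] at h3
            refine ⟨N, r - 1, by omega, ?_⟩
            rw [mul_assoc]
            exact Red.inv_of_two_le h3 (by omega)
          · obtain ⟨N, r, hr, h3⟩ := h2.1 hd
            refine ⟨N + 1, m - 1, by omega, ?_⟩
            have := Red.inv hm hb h3
            simpa only [pow_succ, mul_assoc] using this
      obtain ⟨N, r, hr, h1⟩ := h1
      obtain ⟨n, rfl⟩ : ∃ n : ℕ, c = -(n + 1) := ⟨(-c - 1).toNat, by omega⟩
      have h2 : ∀ n : ℕ, ∃ N r, m ≤ r + (l.length + 1) ∧
          Red x m (!b) r (x b ^ (-((n : ℤ) + 1)) * (pw x (!b) l) * dl x m ^ N) := by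
        intro n
        induction n with
        | zero => exact ⟨N, r, hr, by simpa using h1⟩
        | succ n ih =>
          obtain ⟨N, r, _, hr'⟩ := ih
          refine ⟨N + 1, m - 1, by omega, ?_⟩
          have : x b ^ (-(((n + 1 : ℕ) : ℤ) + 1)) * (pw x (!b) l) * dl x m ^ (N + 1) =
              (x b)⁻¹ * (x b ^ (-((n : ℤ) + 1)) * (pw x (!b) l) * dl x m ^ N) * dl x m := by
            have e : -(((n + 1 : ℕ) : ℤ) + 1) = -1 + -((n : ℤ) + 1) := by push_cast; ring
            rw [e, zpow_add, zpow_neg_one, pow_succ]
            simp only [mul_assoc]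
          rw [this]
          exact Red.inv hm hb hr'
      obtain ⟨N, r, hr, h3⟩ := h2 n
      exact ⟨N, r, hr, h3⟩

end words

section signs

/-- Sign changes in a list. -/
theorem exists_change (l : List ℤ) (h0 : ∀ a ∈ l, a ≠ 0) :
    (∃ l₁ q p l₂, l = l₁ ++ q :: p :: l₂ ∧ q < 0 ∧ 0 < p) ∨
      (∃ l₁ l₂, l = l₁ ++ l₂ ∧ (∀ a ∈ l₁, 0 < a) ∧ ∀ a ∈ l₂, a < 0) := by
  induction l with
  | nil => exact Or.inr ⟨[], [], by simp⟩
  | cons a l ih =>
    rcases ih (fun b hb => h0 b (List.mem_cons_of_mem _ hb)) with
      ⟨l₁, q, p, l₂, rfl, hq, hp⟩ | ⟨l₁, l₂, rfl, h₁, h₂⟩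
    · exact Or.inl ⟨a :: l₁, q, p, l₂, rfl, hq, hp⟩
    · rcases lt_or_gt_of_ne (h0 a (by simp)) with ha | ha
      · rcases l₁ with _ | ⟨p, l₁⟩
        · refine Or.inr ⟨[], a :: l₂, rfl, by simp, ?_⟩
          intro b hb
          rcases List.mem_cons.1 hb with rfl | hb
          · exact ha
          · exact h₂ b hb
        · exact Or.inl ⟨[], a, p, l₁ ++ l₂, rfl, ha, h₁ p (by simp)⟩
      · refine Or.inr ⟨a :: l₁, l₂, rfl, ?_, h₂⟩
        intro b hb
        rcases List.mem_cons.1 hb with rfl | hb
        · exact ha
        · exact h₁ b hb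

end signs

section main

open scoped Matrix

variable {D : Type*} [Group D] {x : Bool → D} {m : ℕ}

/-- The first letter of a reduced word is unique. -/
theorem red_first (ρ : D →* Matrix (Fin 2) (Fin 2) ℝ) (hm : 3 ≤ m)
    (hy : ∀ b, ρ (x b) = y m b) {g : D} {r r' N N' : ℕ}
    (h : Red x m true r (g * dl x m ^ N)) (h' : Red x m false r' (g * dl x m ^ N')) : False := by
  have hm2 : 2 ≤ m := by omega
  obtain ⟨a, e, A, hA, h1⟩ := rho_red ρ hm2 hy h
  obtain ⟨a', e', A', hA', h1'⟩ := rho_red ρ hm2 hy h'
  obtain ⟨c, hc⟩ := rho_dl ρ hm2 hy (N : ℤ)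
  obtain ⟨c', hc'⟩ := rho_dl ρ hm2 hy (N' : ℤ)
  rw [zpow_natCast] at hc hc'
  rw [map_mul, hc] at h1
  rw [map_mul, hc'] at h1'
  have hB := (Mr_big hm2 h.pos (h.lt hm2)).mul hA
  have hB' := (Mr_big hm2 h'.pos (h'.lt hm2)).mul hA'
  set B := Mr m r * A with hBd
  set B' := Mr m r' * A' with hBd'
  have e5 : ∀ d : ℕ, J ^ d * J ^ (3 * d) = 1 := by
    intro d
    rw [← pow_add, show d + 3 * d = 4 * d by ring, pow_mul, J_pow_four, one_pow]
  have e4 : ∀ d : ℕ, J ^ (3 * d) * J ^ d = 1 := by
    intro d
    rw [← pow_add, show 3 * d + d = 4 * d by ring, pow_mul, J_pow_four, one_pow]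
  -- solve for the image of `g`
  have h2 : ρ g = J ^ (2 * a + par true) * B * J ^ (e + 3 * c) := by
    calc ρ g = ρ g * J ^ c * J ^ (3 * c) := by rw [mul_assoc, e5, mul_one]
      _ = _ := by rw [h1, hBd, pow_add J e]; simp only [mul_assoc]
  have h2' : ρ g = J ^ (2 * a' + par false) * B' * J ^ (e' + 3 * c') := by
    calc ρ g = ρ g * J ^ c' * J ^ (3 * c') := by rw [mul_assoc, e5, mul_one]
      _ = _ := by rw [h1', hBd', pow_add J e']; simp only [mul_assoc]
  rw [h2] at h2'
  simp only [par, if_true, Bool.false_eq_true, if_false, add_zero] at h2'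
  generalize e + 3 * c = k at h2'
  generalize e' + 3 * c' = k' at h2'
  have h3 : J * B * J ^ (k + 3 * k') = B' ∨ J * B * J ^ (k + 3 * k') = -B' := by
    have h4 : J ^ (2 * a) * (J * B * J ^ (k + 3 * k')) = J ^ (2 * a') * B' := by
      calc J ^ (2 * a) * (J * B * J ^ (k + 3 * k')) =
          J ^ (2 * a + 1) * B * J ^ k * J ^ (3 * k') := by
            rw [pow_add J k, pow_succ]
            simp only [mul_assoc]
        _ = J ^ (2 * a') * B' * (J ^ k' * J ^ (3 * k')) := by
            rw [h2']
            simp only [mul_assoc]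
        _ = _ := by rw [e5, mul_one]
    rcases J_pow_even a with h | h <;> rcases J_pow_even a' with h' | h' <;> rw [h, h'] at h4
    · left; simpa using h4
    · right; simpa using h4
    · right
      simp only [neg_mul, one_mul] at h4
      rw [← h4, neg_neg]
    · left; simpa using h4
  have b00 := hB.2 0 0
  have b01 := hB.2 0 1
  have b10 := hB.2 1 0
  have b11 := hB.2 1 1
  have b00' := hB'.2 0 0
  have b01' := hB'.2 0 1
  have b10' := hB'.2 1 0
  have b11' := hB'.2 1 1
  have o00 : (1 : Matrix (Fin 2) (Fin 2) ℝ) 0 0 = 1 := by simp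
  have o01 : (1 : Matrix (Fin 2) (Fin 2) ℝ) 0 1 = 0 := by simp
  have o10 : (1 : Matrix (Fin 2) (Fin 2) ℝ) 1 0 = 0 := by simp
  have o11 : (1 : Matrix (Fin 2) (Fin 2) ℝ) 1 1 = 1 := by simp
  rw [o00] at b00 b00'
  rw [o01] at b01 b01'
  rw [o10] at b10 b10'
  rw [o11] at b11 b11'
  have hpos : 0 < B 0 1 ∨ 0 < B 1 0 := by
    have hr1 := h.pos
    have hr2 := h.lt hm2
    by_cases h : 2 ≤ r
    · left
      have h1 : 0 < sn m ((r : ℤ) - 1) := sn_pos hm2 (by omega) (by omega)
      have h2 := hB.1 0 1
      have h3 : Mr m r 0 1 = sn m ((r : ℤ) - 1) := by simp [Mr]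
      rw [h3] at h2
      linarith
    · right
      have h1 : 0 < sn m ((r : ℤ) + 1) := sn_pos hm2 (by omega) (by omega)
      have h2 := hB.1 1 0
      have h3 : Mr m r 1 0 = sn m ((r : ℤ) + 1) := by simp [Mr]
      rw [h3] at h2
      linarith
  have j1 : J * B = !![B 1 0, B 1 1; -B 0 0, -B 0 1] := by
    ext i j
    fin_cases i <;> fin_cases j <;> simp [J, Matrix.mul_apply, Fin.sum_univ_two]
  have j2 : J * B * J = !![-B 1 1, B 1 0; B 0 1, -B 0 0] := by
    rw [j1]
    ext i j
    fin_cases i <;> fin_cases j <;> simp [J, Matrix.mul_apply, Fin.sum_univ_two]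
  rcases J_pow_cases (k + 3 * k') with h | h | h | h <;> rw [h] at h3
  · rw [mul_one, j1] at h3
    rcases h3 with h3 | h3
    · have := congrFun (congrFun h3 1) 1
      simp at this
      linarith
    · have := congrFun (congrFun h3 0) 0
      simp at this
      linarith
  · rw [mul_neg, mul_one, j1] at h3
    rcases h3 with h3 | h3
    · have := congrFun (congrFun h3 0) 0
      simp at this
      linarith
    · have := congrFun (congrFun h3 1) 1
      simp at this
      linarith
  · rw [j2] at h3
    rcases h3 with h3 | h3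
    · have := congrFun (congrFun h3 0) 0
      simp at this
      linarith
    · have e1 := congrFun (congrFun h3 0) 1
      have e2 := congrFun (congrFun h3 1) 0
      simp at e1 e2
      rcases hpos with h | h <;> linarith
  · rw [mul_neg, j2] at h3
    rcases h3 with h3 | h3
    · have e1 := congrFun (congrFun h3 0) 1
      have e2 := congrFun (congrFun h3 1) 0
      simp at e1 e2
      rcases hpos with h | h <;> linarith
    · have := congrFun (congrFun h3 0) 0
      simp at this
      linarith

/-- Products of even length which start with a positive and end with a negative power. -/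
theorem even_ne_one (ρ : D →* Matrix (Fin 2) (Fin 2) ℝ) (hm : 3 ≤ m)
    (hb : bp x true m = bp x false m) (hy : ∀ b, ρ (x b) = y m b) (b : Bool) (p q : ℤ)
    (l : List ℤ) (h0 : ∀ a ∈ l, a ≠ 0) (hp : 0 < p) (hq : q < 0) (hl : Even l.length)
    (hn : l.length + 2 < 2 * m) : pw x b (p :: l ++ [q]) ≠ 1 := by
  intro h
  obtain ⟨k, hk⟩ := hl
  have hs : l = l.take k ++ l.drop k := (List.take_append_drop k l).symm
  have e : p :: l ++ [q] = (p :: l.take k) ++ (l.drop k ++ [q]) := by
    rw [List.cons_append, List.cons_append, ← List.append_assoc, List.take_append_drop]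
  have hl1 : (l.take k).length = k := by rw [List.length_take]; omega
  have hl2 : (l.drop k).length = k := by rw [List.length_drop]; omega
  rw [e, pw_append] at h
  have h1 := eq_inv_of_mul_eq_one_left h
  rw [pw_inv, List.length_cons, hl1, lt_lt, List.length_append, hl2, List.reverse_append,
    List.map_append] at h1
  simp only [List.length_cons, List.length_nil, List.reverse_cons, List.reverse_nil,
    List.nil_append, List.map_cons, List.map_nil, List.singleton_append, zero_add] at h1
  have e2 : LA.lt b (k + 1 + (k + 1 + 1)) = !b := by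
    rw [show k + 1 + (k + 1 + 1) = (2 * k + 2) + 1 by ring, lt_succ]
    exact lt_even _ ⟨k + 1, by ring⟩
  rw [e2] at h1
  have hm2 : 2 ≤ m := by omega
  obtain ⟨N, r, -, h2⟩ := (red_pw hm2 hb (p :: l.take k) b (by rw [List.length_cons, hl1]; omega) (by
    intro a ha
    rcases List.mem_cons.1 ha with rfl | ha
    · exact hp.ne'
    · exact h0 a (List.mem_of_mem_take ha)) p _ rfl).1 hp
  obtain ⟨N', r', -, h3⟩ := (red_pw hm2 hb (-q :: ((l.drop k).reverse.map Neg.neg)) (!b) (by
    rw [List.length_cons, List.length_map, List.length_reverse, hl2]; omega) (by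
    intro a ha
    rcases List.mem_cons.1 ha with rfl | ha
    · omega
    · obtain ⟨c, hc, rfl⟩ := List.mem_map.1 ha
      have := h0 c (List.mem_of_mem_drop (List.mem_reverse.1 hc))
      exact neg_ne_zero.2 this) (-q) _ rfl).1 (by omega)
  rw [← h1] at h3
  cases b
  · exact red_first ρ hm hy h3 h2
  · exact red_first ρ hm hy h2 h3

theorem deg_pw (δ : D →* Multiplicative ℤ) (hδ : ∀ b, δ (x b) = Multiplicative.ofAdd 1) (b : Bool)
    (l : List ℤ) : δ (pw x b l) = Multiplicative.ofAdd l.sum := by
  induction l generalizing b with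
  | nil => simp
  | cons a l ih =>
    rw [pw_cons, map_mul, map_zpow, hδ, ih, ← ofAdd_zsmul, ← ofAdd_add, List.sum_cons,
      smul_eq_mul, mul_one]

/-- The lemma of Appel and Schupp. -/
theorem appel_schupp (ρ : D →* Matrix (Fin 2) (Fin 2) ℝ) (hm : 3 ≤ m)
    (hb : bp x true m = bp x false m) (hy : ∀ b, ρ (x b) = y m b)
    (δ : D →* Multiplicative ℤ) (hδ : ∀ b, δ (x b) = Multiplicative.ofAdd 1) (l : List ℤ)
    (b : Bool) (h0 : ∀ a ∈ l, a ≠ 0) (hl : l ≠ []) (hn : l.length < 2 * m) : pw x b l ≠ 1 := by
  -- products of even length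
  have heven : ∀ (l : List ℤ) (b : Bool), (∀ a ∈ l, a ≠ 0) → l ≠ [] → Even l.length →
      l.length < 2 * m → pw x b l ≠ 1 := by
    intro l b h0 hl he hn h
    have hs : l.sum = 0 := by
      have := deg_pw δ hδ b l
      rw [h, map_one] at this
      exact (ofAdd_eq_one.1 this.symm)
    rcases exists_change l h0 with ⟨l₁, q, p, l₂, rfl, hq, hp⟩ | ⟨l₁, l₂, rfl, h₁, h₂⟩
    · have e : l₁ ++ q :: p :: l₂ = (l₁ ++ [q]) ++ (p :: l₂) := by simp
      rw [e, pw_append] at h
      have h1 : pw x (LA.lt b (l₁ ++ [q]).length) (p :: l₂ ++ (l₁ ++ [q])) = 1 := by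
        rw [pw_append, lt_lt]
        have : LA.lt b ((l₁ ++ [q]).length + (p :: l₂).length) = b := by
          apply lt_even
          rw [← List.length_append, ← e]
          exact he
        rw [this]
        exact mul_eq_one_comm.1 h
      have e2 : p :: l₂ ++ (l₁ ++ [q]) = p :: (l₂ ++ l₁) ++ [q] := by simp
      rw [e2] at h1
      refine even_ne_one ρ hm hb hy _ p q (l₂ ++ l₁) ?_ hp hq ?_ ?_ h1
      · intro a ha
        apply h0
        simp only [List.mem_append, List.mem_cons] at ha ⊢
        tauto
      · simp only [List.length_append, List.length_cons] at he ⊢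
        rw [Nat.even_iff] at he ⊢
        omega
      · simp only [List.length_append, List.length_cons] at hn ⊢
        rw [Nat.even_iff] at he
        omega
    · rw [List.sum_append] at hs
      rcases l₁ with _ | ⟨p, l₁⟩
      · have : ∀ (l : List ℤ), (∀ a ∈ l, a < 0) → l ≠ [] → l.sum < 0 := by
          intro l hl hne
          induction l with
          | nil => exact absurd rfl hne
          | cons a l ih =>
            rw [List.sum_cons]
            have h1 := hl a (by simp)
            by_cases h : l = []
            · rw [h]; simpa using h1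
            · have := ih (fun b hb => hl b (List.mem_cons_of_mem _ hb)) h
              omega
        have := this l₂ h₂ (by simpa using hl)
        simp at hs
        omega
      · rcases List.eq_nil_or_concat l₂ with rfl | ⟨l₃, q, rfl⟩
        · have : ∀ (l : List ℤ), (∀ a ∈ l, 0 < a) → l ≠ [] → 0 < l.sum := by
            intro l hl hne
            induction l with
            | nil => exact absurd rfl hne
            | cons a l ih =>
              rw [List.sum_cons]
              have h1 := hl a (by simp)
              by_cases h : l = []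
              · rw [h]; simpa using h1
              · have := ih (fun b hb => hl b (List.mem_cons_of_mem _ hb)) h
                omega
          have := this (p :: l₁) h₁ (by simp)
          rw [List.sum_nil, add_zero] at hs
          omega
        · have e : (p :: l₁) ++ (l₃.concat q) = p :: (l₁ ++ l₃) ++ [q] := by simp
          rw [e] at h h0 hn he
          refine even_ne_one ρ hm hb hy _ p q (l₁ ++ l₃) ?_ (h₁ p (by simp)) (h₂ q (by simp)) ?_ ?_ h
          · intro a ha
            apply h0
            simp only [List.mem_append, List.mem_cons] at ha ⊢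
            tauto
          · simp only [List.length_append, List.length_cons] at he ⊢
            rw [Nat.even_iff] at he ⊢
            simp at he
            omega
          · simp only [List.length_append, List.length_cons] at hn ⊢
            simp at hn
            omega
  -- the general case
  induction hk : l.length using Nat.strong_induction_on generalizing l b with
  | _ k ih =>
    subst hk
    rcases Nat.even_or_odd l.length with he | ho
    · exact heven l b h0 hl he hn
    · intro h
      rcases l with _ | ⟨a, l⟩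
      · exact hl rfl
      · rcases List.eq_nil_or_concat l with rfl | ⟨l', c, rfl⟩
        · have := deg_pw δ hδ b [a]
          rw [h, map_one] at this
          have h1 := ofAdd_eq_one.1 this.symm
          simp at h1
          exact h0 a (by simp) h1
        · rw [List.length_cons, List.length_concat] at ho hn
          have hev : Even (l'.length + 1) := by
            rw [Nat.odd_iff] at ho
            rw [Nat.even_iff]
            omega
          have hodd : LA.lt (!b) l'.length = b := by
            rw [← lt_succ]
            exact lt_even _ hev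
          rw [pw_cons, List.concat_eq_append, pw_append, hodd, pw_cons, pw_nil, mul_one] at h
          have h1 : pw x (!b) l' * x b ^ (c + a) = 1 := by
            rw [zpow_add, ← mul_assoc]
            exact mul_eq_one_comm.1 h
          have hc0 : ∀ a ∈ l', a ≠ 0 := fun a ha => h0 a (by simp [ha])
          by_cases hca : c + a = 0
          · rw [hca, zpow_zero, mul_one] at h1
            refine ih l'.length (by rw [List.length_cons, List.length_concat]; omega) l' (!b) hc0 ?_ (by omega) rfl h1
            rintro rfl
            simp at hev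
          · refine heven (l' ++ [c + a]) (!b) ?_ (by simp) (by simpa using hev) (by simp; omega) ?_
            · intro d hd
              rcases List.mem_append.1 hd with hd | hd
              · exact hc0 d hd
              · rw [List.mem_singleton.1 hd]
                exact hca
            · rw [pw_append, hodd, pw_cons, pw_nil, mul_one]
              exact h1

end main

end Pool.Agent.Helper54.TD
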