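import Pool.Agent.Helper54.TD.Cls
import Pool.Agent.Helper54.LA.Fin
import Pool.Agent.Helper26.TD.K

/-!
# Artin groups of dimension two
-/

set_option autoImplicit false

namespace Pool.Agent.Helper54.TD

open Pool.Agent.Helper54.LA Pool.Agent.Helper29.BA Pool.Agent.Helper29.PA Pool.Agent.Helper3.FJ
  Pool.Agent.Helper13.LT Pool.Agent.Helper26.LT Pool.Agent.Helper26.TD Pool.Agent.Helper9.TD

open scoped MatrixGroups

variable {S : Type} (M : CoxeterMatrix S)

theorem sy_eq {G : Type} [Group G] (l : List ℤ) (x y : G) :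
    sy x y l = pw (pr x y) true l ∧ sy y x l = pw (pr x y) false l := by
  induction l generalizing x y with
  | nil => exact ⟨rfl, rfl⟩
  | cons a l ih =>
    constructor
    · rw [sy, pw_cons, (ih x y).2]
      rfl
    · rw [sy, pw_cons, (ih x y).1]
      rfl

/-- The lemma of Appel and Schupp. -/
theorem sy_ne_one [Finite S] (s t : S) (hst : s ≠ t) (h0 : M s t ≠ 0) (l : List ℤ) (hl : l ≠ [])
    (hn : l.length < 2 * M s t) (hl0 : ∀ z ∈ l, z ≠ 0) : sy (gen M s) (gen M t) l ≠ 1 := by
  rw [(sy_eq l (gen M s) (gen M t)).1]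
  exact artin_appel_schupp M hst h0 l true hl0 hl hn

/-- The coset complex is a typed complex. -/
theorem tk_cx [Finite S] : TK (ex M) (cx M) (tau M) :=
  tk fun s t hst h0 l hl hn hl0 => sy_ne_one M s t hst h0 l hl hn hl0

/-- The assembly for finite rank; `main` is the theorem about groups acting on typed complexes. -/
theorem artin_finite2 {C : ∀ (G : Type) [Group G], Prop} (hC : ClosedClass C)
    (hGL : ∀ n, C (GL (Fin n) ℤ)) [Finite S] (hM : TwoDim M)
    (main : ∀ {V : Type} {X : Cpx V} {τ : V → Finset (Option S)} {G : Type} [Group G]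
      [MulAction G V], TwoDim (ex M) → TK (ex M) X τ → ActsT G X τ → X.SimplyConn →
      (∀ K : Finset V, ∃ (Q : Type) (_ : Group Q) (f : G →* Q), C Q ∧
        ∀ v ∈ K, ∀ g : G, g • v = v → f g = 1 → g = 1) → C G) : C (ArtinGroup M) := by
  obtain ⟨Q, hQ, f, h1, h2, h3⟩ := artin_faithful2 M hC hGL
  exact main (X := cx M) (τ := tau M) (twoDim_ex hM) (tk_cx M) actsT cx_simplyConn
    fun K => ⟨Q, hQ, f, h1, fun v _ g hg hf => stab_injective M f h2 h3 v g hg hf⟩

theorem res_twoDim (hM : TwoDim M) (i : Set S) : TwoDim (res M i) := by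
  intro s t u hst htu hsu h1 h2 h3
  exact hM s t u (fun h => hst (Subtype.ext h)) (fun h => htu (Subtype.ext h))
    (fun h => hsu (Subtype.ext h)) h1 h2 h3

/-- The theorem for arbitrary rank. -/
theorem artin_twoDim {C : ∀ (G : Type) [Group G], Prop} (hC : ClosedClass C)
    (hGL : ∀ n, C (GL (Fin n) ℤ)) (hM : TwoDim M)
    (main : ∀ {T : Type} [Finite T] {N : CoxeterMatrix T} {V : Type} {X : Cpx V}
      {τ : V → Finset T} {G : Type} [Group G] [MulAction G V], TwoDim N → TK N X τ →
      ActsT G X τ → X.SimplyConn →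
      (∀ K : Finset V, ∃ (Q : Type) (_ : Group Q) (f : G →* Q), C Q ∧
        ∀ v ∈ K, ∀ g : G, g • v = v → f g = 1 → g = 1) → C G) : C (ArtinGroup M) :=
  of_finite M hC fun i => artin_finite2 (res M (i : Set S)) hC hGL (res_twoDim M hM i) main

end Pool.Agent.Helper54.TD
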