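import Pool.Agent.Helper54.LA.Short
import Pool.Agent.Helper54.TD.AS

/-!
# Representations of Artin groups by transvections, for all labels

Over the sum of two copies of the set of generators the transvections of two commuting generators
are independent.
-/

set_option autoImplicit false

namespace Pool.Agent.Helper54.TD

open scoped Matrix MatrixGroups

open Pool.Agent.Helper54.LA Pool.Agent.Helper29.BA Pool.Agent.Helper13.LT

section

variable {S : Type*} [Fintype S] [LinearOrder S] {R : Type*} [CommRing R]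

/-- The form. -/
def frm2 (L : S → S → R) : Matrix (S ⊕ S) (S ⊕ S) R := Matrix.fromBlocks (frm L) 1 (-1) 0

omit [Fintype S] in
theorem frm2_diag (L : S → S → R) (s : S ⊕ S) : frm2 L s s = 0 := by
  rcases s with s | s
  · exact frm_diag L s
  · rfl

omit [Fintype S] in
theorem frm2_inl (L : S → S → R) (s t : S) : frm2 L (Sum.inl s) (Sum.inl t) = frm L s t := rfl

omit [Fintype S] in
theorem frm2_inr (L : S → S → R) (s t : S) :
    frm2 L (Sum.inl s) (Sum.inr t) = if s = t then 1 else 0 := by
  change (1 : Matrix S S R) s t = _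
  rw [Matrix.one_apply]

omit [Fintype S] [LinearOrder S] in
variable (S) in
/-- A pair of indices. -/
def qq (s t : S) : Fin 2 → S ⊕ S := ![Sum.inl s, Sum.inl t]

omit [Fintype S] [LinearOrder S] in
theorem qq_inj {s t : S} (h : s ≠ t) : Function.Injective (qq S s t) := by
  intro i j hij
  fin_cases i <;> fin_cases j <;> simp_all [qq, h.symm]

theorem frm2_pair (L : S → S → R) {s t : S} (h : s < t) :
    (em R (qq S s t))ᵀ * frm2 L * em R (qq S s t) = fm (L s t) := by
  ext i j
  rw [em_C]
  fin_cases i <;> fin_cases j <;> simp [qq, frm2, frm, fm, h, h.not_gt]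

omit [Fintype S] [LinearOrder S] [CommRing R] in
theorem pr_ix2 {E : Type*} (s t : S) (f : S ⊕ S → E) :
    (fun b => f (qq S s t (ix b))) = pr (f (Sum.inl s)) (f (Sum.inl t)) := by
  funext b
  cases b <;> rfl

omit [Fintype S] in
/-- The products of the transvections of commuting generators. -/
theorem single_frm2 [Fintype S] (L : S → S → R) {s t : S} (h : frm L s t = 0) :
    Matrix.single (Sum.inl s) (Sum.inl s) (1 : R) * frm2 L *
      (Matrix.single (Sum.inl t) (Sum.inl t) 1 * frm2 L) = 0 := by
  rw [← mul_assoc, Matrix.single_mul_mul_single, frm2_inl, h]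
  simp

theorem braid_frm2 (f : R →+* ℝ) (hf : Function.Injective f) (M : S → S → ℕ)
    (hM : ∀ s t, s ≠ t → M s t = 0 ∨ 2 ≤ M s t) (hMs : ∀ s t, M s t = M t s) (L : S → S → R)
    (hL : ∀ s t, f (L s t) = lam (M s t)) (s t : S) (hst : s ≠ t) :
    bp (pr (tv (frm2 L) (Sum.inl s)) (tv (frm2 L) (Sum.inl t))) true (M s t) =
      bp (pr (tv (frm2 L) (Sum.inl s)) (tv (frm2 L) (Sum.inl t))) false (M s t) := by
  have key : ∀ s t : S, s < t →
      bp (pr (tv (frm2 L) (Sum.inl s)) (tv (frm2 L) (Sum.inl t))) true (M s t) =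
      bp (pr (tv (frm2 L) (Sum.inl s)) (tv (frm2 L) (Sum.inl t))) false (M s t) := by
    intro s t h
    rcases hM s t h.ne with h0 | h2
    · rw [h0]
      rfl
    · rcases h2.eq_or_lt with h2 | h3
      · -- commuting generators
        have hl : L s t = 0 := by
          apply hf
          rw [hL, ← h2, map_zero]
          unfold lam
          norm_num
        have e1 : frm L s t = 0 := by simp [frm, h, hl]
        have e2 : frm L t s = 0 := by simp [frm, h, h.not_gt, hl]
        have f1 := single_frm2 L e1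
        have f2 := single_frm2 L e2
        rw [← h2]
        change tv (frm2 L) (Sum.inl s) * (tv (frm2 L) (Sum.inl t) * 1) =
          tv (frm2 L) (Sum.inl t) * (tv (frm2 L) (Sum.inl s) * 1)
        unfold tv
        rw [mul_one, mul_one, mul_add, mul_one, add_mul, one_mul, f1, mul_add, mul_one, add_mul,
          one_mul, f2]
        abel
      · have := braid_tv (frm2_pair L h) f hf h3 (hL s t)
        rwa [pr_ix2] at this
  rcases lt_or_gt_of_ne hst with h | h
  · exact key s t h
  · rw [bp_swap, bp_swap (tv (frm2 L) (Sum.inl s)) _ false, hMs s t]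
    exact (key t s h).symm

/-- The representation of the Artin group by transvections. -/
def rep2 (f : R →+* ℝ) (hf : Function.Injective f) (M : S → S → ℕ)
    (hM : ∀ s t, s ≠ t → M s t = 0 ∨ 2 ≤ M s t) (hMs : ∀ s t, M s t = M t s) (L : S → S → R)
    (hL : ∀ s t, f (L s t) = lam (M s t)) :
    PresentedGroup (rels M) →* (Matrix (S ⊕ S) (S ⊕ S) R)ˣ :=
  PresentedGroup.toGroup (f := fun s => tvu (frm2 L) (frm2_diag L) (Sum.inl s)) (by
    rintro w ⟨s, t, hst, rfl⟩
    rw [map_mul, map_inv, mul_inv_eq_one]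
    apply Units.ext
    have h : ∀ b, ((FreeGroup.lift (fun s => tvu (frm2 L) (frm2_diag L) (Sum.inl s))
        (bp (pr (FreeGroup.of s) (FreeGroup.of t)) b (M s t)) : (Matrix (S ⊕ S) (S ⊕ S) R)ˣ) :
          Matrix (S ⊕ S) (S ⊕ S) R) =
        bp (pr (tv (frm2 L) (Sum.inl s)) (tv (frm2 L) (Sum.inl t))) b (M s t) := by
      intro b
      have h1 := map_bp (pr (FreeGroup.of s) (FreeGroup.of t))
        ((Units.coeHom (Matrix (S ⊕ S) (S ⊕ S) R)).comp
          (FreeGroup.lift (fun s => tvu (frm2 L) (frm2_diag L) (Sum.inl s)))) b (M s t)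
      rw [pr_map] at h1
      have h2 : ∀ s, ((Units.coeHom (Matrix (S ⊕ S) (S ⊕ S) R)).comp
          (FreeGroup.lift (fun s => tvu (frm2 L) (frm2_diag L) (Sum.inl s)))) (FreeGroup.of s) =
            tv (frm2 L) (Sum.inl s) := by
        intro s
        rw [MonoidHom.comp_apply, FreeGroup.lift_apply_of]
        rfl
      rw [h2, h2] at h1
      exact h1
    rw [h, h]
    exact braid_frm2 f hf M hM hMs L hL s t hst)

theorem rep2_of (f : R →+* ℝ) (hf : Function.Injective f) (M : S → S → ℕ)
    (hM : ∀ s t, s ≠ t → M s t = 0 ∨ 2 ≤ M s t) (hMs : ∀ s t, M s t = M t s) (L : S → S → R)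
    (hL : ∀ s t, f (L s t) = lam (M s t)) (s : S) :
    rep2 f hf M hM hMs L hL (PresentedGroup.of s) = tvu (frm2 L) (frm2_diag L) (Sum.inl s) :=
  PresentedGroup.toGroup.of _

/-- Independence of commuting generators. -/
theorem rep2_two (f : R →+* ℝ) (hf : Function.Injective f) (M : S → S → ℕ)
    (hM : ∀ s t, s ≠ t → M s t = 0 ∨ 2 ≤ M s t) (hMs : ∀ s t, M s t = M t s) (L : S → S → R)
    (hL : ∀ s t, f (L s t) = lam (M s t)) {s t : S} (hst : s ≠ t) (h2 : M s t = 2) (a b : ℤ)
    (h : rep2 f hf M hM hMs L hL (PresentedGroup.of s ^ a * PresentedGroup.of t ^ b) = 1) :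
    a = 0 ∧ b = 0 := by
  have hl : ∀ s t, M s t = 2 → L s t = 0 := by
    intro s t h2
    apply hf
    rw [hL, h2, map_zero]
    unfold lam
    norm_num
  have e1 : frm L s t = 0 := by
    simp [frm, hl s t h2, hl t s (by rw [← hMs]; exact h2)]
  have f1 := single_frm2 L e1
  have h1 := congrArg Units.val h
  rw [map_mul, map_zpow, map_zpow, rep2_of, rep2_of, Units.val_mul,
    unip_zpow _ (tv_sq (frm2_diag L) (Sum.inl s)) _ rfl,
    unip_zpow _ (tv_sq (frm2_diag L) (Sum.inl t)) _ rfl, mul_add, mul_one, add_mul, one_mul,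
    smul_mul_smul_comm, f1, smul_zero, add_zero, Units.val_one, add_assoc, add_eq_left] at h1
  have hR : ∀ n : ℤ, (n : R) = 0 → n = 0 := by
    intro n hn
    have := congrArg f hn
    rw [map_intCast, map_zero] at this
    exact_mod_cast this
  have h3 : ∀ (s t : S), (Matrix.single (Sum.inl s) (Sum.inl s) (1 : R) * frm2 L :
      Matrix (S ⊕ S) (S ⊕ S) R) (Sum.inl t) (Sum.inr t) = if s = t then 1 else 0 := by
    intro s t
    by_cases hs : s = t
    · subst hs
      rw [if_pos rfl, Matrix.single_mul_apply_same, frm2_inr, if_pos rfl, one_mul]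
    · rw [if_neg hs, Matrix.single_mul_apply_of_ne]
      simpa using fun h => hs h.symm
  constructor
  · have h4 := congrFun (congrFun h1 (Sum.inl s)) (Sum.inr s)
    rw [Matrix.add_apply, Matrix.smul_apply, Matrix.smul_apply, h3, h3, if_pos rfl,
      if_neg hst.symm, smul_zero, add_zero, zsmul_eq_mul, mul_one, Matrix.zero_apply] at h4
    exact hR a h4
  · have h4 := congrFun (congrFun h1 (Sum.inl t)) (Sum.inr t)
    rw [Matrix.add_apply, Matrix.smul_apply, Matrix.smul_apply, h3, h3, if_pos rfl,
      if_neg hst, smul_zero, zero_add, zsmul_eq_mul, mul_one, Matrix.zero_apply] at h4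
    exact hR b h4

end

end Pool.Agent.Helper54.TD
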